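import Mathlib
import Pool.Agent.N567.PL.Floor
import Pool.Agent.N567.PL.Arith

set_option autoImplicit false

/-!
# Primes in the real orbits of the fundamental unit `1 + √2`

The real solutions of the recurrence `x (n + 1) = x n + 2 y n`, `y (n + 1) = x n + y n`, that is of
`x n + y n √2 = (x 0 + y 0 √2) (1 + √2) ^ n`, are the sequences `x t u`, `y t u` below, with
`t = x 0 + y 0 √2`, `u = x 0 - y 0 √2`; they satisfy `x n ^ 2 - 2 y n ^ 2 = t u (-1) ^ n`.  The
positive integer solutions of `p ^ 2 - 2 r ^ 2 = -1` are the pairs `(x 1 1 n, y 1 1 n)` with `n` odd.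
For a prime `q` let `X t u q` and `Y t u q` be the `q`-rough parts (the products, with multiplicity,
of the prime factors larger than `q`) of `⌊x t u q⌋` and `⌊y t u q⌋`.  At `t = u = 1` they are
`x 1 1 q` and `y 1 1 q` themselves for all primes `q ≥ 5`, and the two questions ask whether
`X 1 1 q` is prime for infinitely many primes `q`, and whether `X 1 1 q` and `Y 1 1 q` are both prime
for infinitely many primes `q`.

We prove that for almost every `t > 0` and *every* real `u` (so for almost every point with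
`x + y √2 > 0` of every hyperbola `x ^ 2 - 2 y ^ 2 = N`, for instance `N = -1`) the answer to the
first question is positive, with the number of primes `q ≤ n` with `X t u q` prime equal to
`(e ^ γ / log (1 + √2)) log n + O((log n) ^ (1/2) (log log n) ^ (5/2))`, and the answer to the second
one is negative: `X t u n` and `Y t u n` are both prime for only finitely many `n`.
-/

namespace Pool.Agent.Results.MP_927e73_nt.PellOrbits

open Filter Topology MeasureTheory Asymptotics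

/-- The fundamental unit. -/
noncomputable def α : ℝ := 1 + Real.sqrt 2

/-- Its conjugate. -/
noncomputable def α' : ℝ := 1 - Real.sqrt 2

/-- The first coordinate of the point number `n` of an orbit. -/
noncomputable def x (t u : ℝ) (n : ℕ) : ℝ := (t * α ^ n + u * α' ^ n) / 2

/-- The second coordinate of the point number `n` of an orbit. -/
noncomputable def y (t u : ℝ) (n : ℕ) : ℝ := (t * α ^ n - u * α' ^ n) / (2 * Real.sqrt 2)

/-- The product, with multiplicity, of the prime factors of `m` that are larger than `q`. -/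
def roughPart (q m : ℕ) : ℕ := (m.primeFactorsList.filter (fun r => q < r)).prod

/-- The `q`-rough part of `⌊x t u q⌋`. -/
noncomputable def X (t u : ℝ) (q : ℕ) : ℕ := roughPart q ⌊x t u q⌋₊

/-- The `q`-rough part of `⌊y t u q⌋`. -/
noncomputable def Y (t u : ℝ) (q : ℕ) : ℕ := roughPart q ⌊y t u q⌋₊

open Classical in
/-- The number of primes `q ≤ n` in the set `S` for which `w q` is prime. -/
noncomputable def M (w : ℕ → ℕ) (S : Set ℕ) (n : ℕ) : ℕ :=
  ((Finset.range (n + 1)).filter (fun q => q.Prime ∧ q ∈ S ∧ (w q).Prime)).card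

open Classical in
/-- The sum of `log q / q` over the primes `q ≤ n` in the set `S`. -/
noncomputable def V (S : Set ℕ) (n : ℕ) : ℝ :=
  ∑ q ∈ (Finset.range (n + 1)).filter (fun q => q.Prime ∧ q ∈ S), Real.log q / q

/-- The law for the sequence `w` and the set of primes `S`. -/
def Law (w : ℕ → ℕ) (S : Set ℕ) : Prop :=
  ({q : ℕ | q.Prime ∧ q ∈ S ∧ (w q).Prime}.Infinite ↔ Tendsto (V S) atTop atTop) ∧
  (Tendsto (V S) atTop atTop →
    (fun n : ℕ => (M w S n : ℝ) - Real.exp Real.eulerMascheroniConstant / Real.log α * V S n)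
      =O[atTop] (fun n : ℕ => Real.sqrt (V S n * Real.log (Real.log n)) *
          (Real.log (V S n * Real.log (Real.log n))) ^ 2))

lemma V_eq (S : Set ℕ) (n : ℕ) : V S n = Pool.Agent.TH888.R.VS S n := by
  classical
  unfold V Pool.Agent.TH888.R.VS
  rw [Finset.sum_filter]
  refine Finset.sum_congr rfl fun p _ => ?_
  by_cases h : p.Prime ∧ p ∈ S
  · rw [if_pos h, if_pos ⟨h.2, h.1⟩]
    rfl
  · rw [if_neg h, if_neg fun h1 => h ⟨h1.2, h1.1⟩]

lemma sqrt2_sq : Real.sqrt 2 ^ 2 = 2 := Real.sq_sqrt (by norm_num)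

lemma sqrt2_pos : 0 < Real.sqrt 2 := Real.sqrt_pos.2 (by norm_num)

lemma one_lt_sqrt2 : 1 < Real.sqrt 2 := by nlinarith [sqrt2_sq, sqrt2_pos]

lemma one_lt_alpha : 1 < α := by unfold α; linarith [sqrt2_pos]

lemma alpha_add : α + α' = ((2 : ℤ) : ℝ) := by unfold α α'; push_cast; ring

lemma alpha_mul : α * α' = -1 := by unfold α α'; nlinarith [sqrt2_sq]

lemma norm_form (t u : ℝ) (n : ℕ) : x t u n ^ 2 - 2 * y t u n ^ 2 = t * u * (-1) ^ n := by
  have h0 := sqrt2_pos.ne'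
  rw [← alpha_mul, mul_pow]
  unfold x y
  rw [div_pow, div_pow, mul_pow 2 (Real.sqrt 2), sqrt2_sq]
  ring

lemma x_succ (t u : ℝ) (n : ℕ) : x t u (n + 1) = x t u n + 2 * y t u n := by
  have h0 := sqrt2_pos.ne'
  have h : 2 * y t u n = (t * α ^ n - u * α' ^ n) * Real.sqrt 2 / 2 := by
    unfold y
    rw [eq_div_iff (by norm_num), ← mul_div_assoc, div_mul_eq_mul_div, div_eq_iff (by positivity)]
    linear_combination (-2 * (t * α ^ n - u * α' ^ n)) * sqrt2_sq
  rw [h]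
  unfold x
  rw [pow_succ, pow_succ]
  unfold α α'
  ring

lemma y_succ (t u : ℝ) (n : ℕ) : y t u (n + 1) = x t u n + y t u n := by
  have h0 := sqrt2_pos.ne'
  unfold x y
  rw [pow_succ, pow_succ, div_add_div _ _ (by norm_num) (by positivity),
    div_eq_div_iff (by positivity) (by positivity)]
  set a := α ^ n
  set b := α' ^ n
  unfold α α'
  linear_combination (4 * (t * a + u * b) - 4 * (t * a + u * b)) * sqrt2_sq

lemma x_one (n : ℕ) : x 1 1 n = Pool.Agent.N567.PL.H n := by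
  rw [(Pool.Agent.N567.PL.closed_forms n).1]
  unfold x α α'
  rw [one_mul, one_mul]

lemma y_one (n : ℕ) : y 1 1 n = Pool.Agent.N567.PL.D n := by
  rw [(Pool.Agent.N567.PL.closed_forms n).2]
  unfold y α α'
  rw [one_mul, one_mul]

lemma X_one {q : ℕ} (hq : q.Prime) (h5 : 5 ≤ q) : X 1 1 q = Pool.Agent.N567.PL.H q := by
  have h : Pool.Agent.H305R2.roughPart q ⌊x 1 1 q⌋₊ = Pool.Agent.N567.PL.H q := by
    rw [x_one, Nat.floor_natCast]
    exact Pool.Agent.H447R2.ML.roughPart_eq_self (Pool.Agent.N567.PL.H_pos q).ne' fun l hl h =>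
      Pool.Agent.N567.PL.lt_of_dvd_H hq h5 hl h
  exact h

lemma Y_one {q : ℕ} (hq : q.Prime) (h5 : 5 ≤ q) : Y 1 1 q = Pool.Agent.N567.PL.D q := by
  have h : Pool.Agent.H305R2.roughPart q ⌊y 1 1 q⌋₊ = Pool.Agent.N567.PL.D q := by
    rw [y_one, Nat.floor_natCast]
    refine Pool.Agent.H447R2.ML.roughPart_eq_self ?_ fun l hl h =>
      Pool.Agent.N567.PL.lt_of_dvd_D hq h5 hl h
    obtain ⟨n, rfl⟩ := Nat.exists_eq_add_of_le' hq.one_lt.le
    exact (Pool.Agent.N567.PL.D_pos n).ne'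
  exact h

lemma solutions (p r : ℕ) : p ^ 2 + 1 = 2 * r ^ 2 ↔
    ∃ n : ℕ, Odd n ∧ (p : ℝ) = x 1 1 n ∧ (r : ℝ) = y 1 1 n := by
  constructor
  · intro h
    obtain ⟨n, h1, h2, h3⟩ := Pool.Agent.N567.PL.pell_solutions r p h
    exact ⟨n, h1, by rw [x_one, h2], by rw [y_one, h3]⟩
  · rintro ⟨n, h1, h2, h3⟩
    rw [x_one] at h2
    rw [y_one] at h3
    have h2' : p = Pool.Agent.N567.PL.H n := by exact_mod_cast h2
    have h3' : r = Pool.Agent.N567.PL.D n := by exact_mod_cast h3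
    rw [h2', h3']
    exact Pool.Agent.N567.PL.pell_conv h1

/-- passage from the solutions to the prime indices -/
lemma infinite_iff {R : ℕ → Prop} :
    {s : ℕ × ℕ | s.1 ^ 2 + 1 = 2 * s.2 ^ 2 ∧ s.1.Prime ∧ R s.2}.Infinite ↔
    {q : ℕ | q.Prime ∧ 5 ≤ q ∧ (Pool.Agent.N567.PL.H q).Prime ∧ R (Pool.Agent.N567.PL.D q)}.Infinite := by
  set f : ℕ → ℕ × ℕ := fun q => (Pool.Agent.N567.PL.H q, Pool.Agent.N567.PL.D q) with hf
  set Q := {q : ℕ | q.Prime ∧ 5 ≤ q ∧ (Pool.Agent.N567.PL.H q).Prime ∧ R (Pool.Agent.N567.PL.D q)} with hQ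
  set T := {s : ℕ × ℕ | s.1 ^ 2 + 1 = 2 * s.2 ^ 2 ∧ s.1.Prime ∧ R s.2} with hT
  have hinj : Set.InjOn f Q := by
    intro a ha b hb hab
    have h1 : Pool.Agent.N567.PL.H a = Pool.Agent.N567.PL.H b := (Prod.mk.injEq _ _ _ _ ▸ hab).1
    rcases lt_trichotomy a b with h | h | h
    · exact absurd h1 (Pool.Agent.N567.PL.H_strict ha.1.one_lt.le h).ne
    · exact h
    · exact absurd h1 (Pool.Agent.N567.PL.H_strict hb.1.one_lt.le h).ne'
  constructor
  · intro hi hfin
    refine hi (((hfin.image f).union ((Set.finite_lt_nat 5).image f)).subset ?_)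
    rintro ⟨p, r⟩ ⟨h1, h2, h3⟩
    obtain ⟨n, hn, h4, h5⟩ := Pool.Agent.N567.PL.pell_solutions r p h1
    simp only at h1 h2 h3
    have h6 := Pool.Agent.N567.PL.prime_index hn (h4 ▸ h2)
    by_cases h7 : 5 ≤ n
    · exact Or.inl ⟨n, ⟨h6, h7, h4 ▸ h2, h5 ▸ h3⟩, by rw [hf, h4, h5]⟩
    · exact Or.inr ⟨n, by show n < 5; omega, by rw [hf, h4, h5]⟩
  · intro hi
    refine ((Set.infinite_image_iff hinj).2 hi).mono ?_
    rintro _ ⟨q, ⟨h1, h2, h3, h4⟩, rfl⟩
    exact ⟨Pool.Agent.N567.PL.pell_conv (h1.odd_of_ne_two (by omega)), h3, h4⟩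

lemma question_one : {s : ℕ × ℕ | s.1 ^ 2 + 1 = 2 * s.2 ^ 2 ∧ s.1.Prime}.Infinite ↔
    {q : ℕ | q.Prime ∧ (X 1 1 q).Prime}.Infinite := by
  have h := infinite_iff (R := fun _ => True)
  simp only [and_true] at h
  rw [h]
  constructor
  · intro hi
    refine hi.mono ?_
    rintro q ⟨h1, h2, h3⟩
    exact ⟨h1, by rw [X_one h1 h2]; exact h3⟩
  · intro hi hfin
    refine hi ((hfin.union (Set.finite_lt_nat 5)).subset ?_)
    rintro q ⟨h1, h2⟩
    by_cases h5 : 5 ≤ q
    · exact Or.inl ⟨h1, h5, by rw [← X_one h1 h5]; exact h2⟩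
    · exact Or.inr (by show q < 5; omega)

lemma question_two : {s : ℕ × ℕ | s.1 ^ 2 + 1 = 2 * s.2 ^ 2 ∧ s.1.Prime ∧ s.2.Prime}.Infinite ↔
    {q : ℕ | q.Prime ∧ (X 1 1 q).Prime ∧ (Y 1 1 q).Prime}.Infinite := by
  have h := infinite_iff (R := fun r => r.Prime)
  rw [h]
  constructor
  · intro hi
    refine hi.mono ?_
    rintro q ⟨h1, h2, h3, h4⟩
    exact ⟨h1, by rw [X_one h1 h2]; exact h3, by rw [Y_one h1 h2]; exact h4⟩
  · intro hi hfin
    refine hi ((hfin.union (Set.finite_lt_nat 5)).subset ?_)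
    rintro q ⟨h1, h2, h3⟩
    by_cases h5 : 5 ≤ q
    · exact Or.inl ⟨h1, h5, by rw [← X_one h1 h5]; exact h2, by rw [← Y_one h1 h5]; exact h3⟩
    · exact Or.inr (by show q < 5; omega)

lemma x_form (t u : ℝ) (n : ℕ) : x t u n = 1 / 2 * t * α ^ n + (u / 2) * α' ^ n := by
  unfold x; ring

lemma y_form (t u : ℝ) (n : ℕ) :
    y t u n = 1 / (2 * Real.sqrt 2) * t * α ^ n + (-(u / (2 * Real.sqrt 2))) * α' ^ n := by
  unfold y; ring

lemma law_of {s : ℕ → ℕ} {S : Set ℕ}
    (h : Pool.Agent.TH888.R.Pt s (Real.exp Real.eulerMascheroniConstant / Real.log α) S) :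
    Law (fun q => roughPart q (s q)) S := by
  classical
  have hV : V S = Pool.Agent.TH888.R.VS S := funext fun n => V_eq S n
  refine ⟨?_, fun hd => ?_⟩
  · rw [hV]
    constructor
    · intro hi
      by_contra hn
      exact hi (h.fin hn)
    · exact h.inf
  · rw [hV] at hd ⊢
    obtain ⟨B, hB, h1⟩ := h.law hd
    exact Pool.Agent.TH888.R.bigO_set hB hd h1

lemma all_of {s : ℕ → ℕ}
    (h : Pool.Agent.TH888.R.Pt s (Real.exp Real.eulerMascheroniConstant / Real.log α) Set.univ) :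
    (fun n : ℕ => (M (fun q => roughPart q (s q)) Set.univ n : ℝ) -
      Real.exp Real.eulerMascheroniConstant / Real.log α * Real.log n) =O[atTop]
      (fun n : ℕ => Real.sqrt (Real.log n) * (Real.log (Real.log n)) ^ ((5 : ℝ) / 2)) := by
  classical
  obtain ⟨B, hB, h1⟩ := h.law Pool.Agent.TH888.R.VS_univ_tendsto
  exact Pool.Agent.TH888.R.bigO_all hB h1

/-- `√2` is badly approximable -/
lemma dio_sqrt2 (a b : ℕ) (ha : 1 ≤ a) (hb : 1 ≤ b) :
    1 ≤ |(a : ℝ) - b * Real.sqrt 2| * (2 * (a + b)) := by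
  have ha1 : (1 : ℝ) ≤ a := by exact_mod_cast ha
  have hb1 : (1 : ℝ) ≤ b := by exact_mod_cast hb
  have hN : (a : ℤ) ^ 2 - 2 * (b : ℤ) ^ 2 ≠ 0 := by
    intro h
    have h2 : Real.sqrt 2 = (a : ℝ) / b := by
      rw [eq_div_iff (by positivity)]
      have h3 : (a : ℝ) ^ 2 = 2 * (b : ℝ) ^ 2 := by
        have : (a : ℤ) ^ 2 = 2 * (b : ℤ) ^ 2 := by linarith
        exact_mod_cast this
      have h4 : (Real.sqrt 2 * b) ^ 2 = (a : ℝ) ^ 2 := by
        rw [mul_pow, sqrt2_sq, h3]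
      have := sqrt2_pos
      exact (pow_left_inj₀ (by positivity) (by positivity) two_ne_zero).1 h4
    refine irrational_sqrt_two ⟨(a : ℚ) / b, ?_⟩
    rw [h2]
    push_cast
    rfl
  have h1 : 1 ≤ |(a : ℝ) - b * Real.sqrt 2| * |(a : ℝ) + b * Real.sqrt 2| := by
    rw [← abs_mul]
    have e : ((a : ℝ) - b * Real.sqrt 2) * (a + b * Real.sqrt 2) =
        (((a : ℤ) ^ 2 - 2 * (b : ℤ) ^ 2 : ℤ) : ℝ) := by
      push_cast
      linear_combination (-(b : ℝ) ^ 2) * sqrt2_sq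
    rw [e, ← Int.cast_abs]
    exact_mod_cast Int.one_le_abs hN
  refine h1.trans (mul_le_mul_of_nonneg_left ?_ (abs_nonneg _))
  have h2 : Real.sqrt 2 ≤ 2 := by nlinarith [sqrt2_sq, sqrt2_pos]
  rw [abs_of_nonneg (by positivity)]
  nlinarith

/-- **Primes in the real orbits of the fundamental unit.**  For almost every `t > 0` and every `u`
the analogue of the first question has a positive answer, with a law with a square root error term,
for all primes and for every fixed set of primes of positive weight, and the analogue of the second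
question has a negative answer. -/
theorem result :
    (∀ (t u : ℝ) (n : ℕ), x t u (n + 1) = x t u n + 2 * y t u n ∧
      y t u (n + 1) = x t u n + y t u n ∧ x t u n ^ 2 - 2 * y t u n ^ 2 = t * u * (-1) ^ n) ∧
    (∀ p r : ℕ, p ^ 2 + 1 = 2 * r ^ 2 ↔
      ∃ n : ℕ, Odd n ∧ (p : ℝ) = x 1 1 n ∧ (r : ℝ) = y 1 1 n) ∧
    (∀ q : ℕ, q.Prime → 5 ≤ q → (X 1 1 q : ℝ) = x 1 1 q ∧ (Y 1 1 q : ℝ) = y 1 1 q) ∧
    ({s : ℕ × ℕ | s.1 ^ 2 + 1 = 2 * s.2 ^ 2 ∧ s.1.Prime}.Infinite ↔
      {q : ℕ | q.Prime ∧ (X 1 1 q).Prime}.Infinite) ∧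
    ({s : ℕ × ℕ | s.1 ^ 2 + 1 = 2 * s.2 ^ 2 ∧ s.1.Prime ∧ s.2.Prime}.Infinite ↔
      {q : ℕ | q.Prime ∧ (X 1 1 q).Prime ∧ (Y 1 1 q).Prime}.Infinite) ∧
    (∀ᵐ t : ℝ, 0 < t → ∀ u : ℝ,
      (fun n : ℕ => (M (X t u) Set.univ n : ℝ) -
        Real.exp Real.eulerMascheroniConstant / Real.log α * Real.log n) =O[atTop]
        (fun n : ℕ => Real.sqrt (Real.log n) * (Real.log (Real.log n)) ^ ((5 : ℝ) / 2)) ∧
      (fun n : ℕ => (M (Y t u) Set.univ n : ℝ) -
        Real.exp Real.eulerMascheroniConstant / Real.log α * Real.log n) =O[atTop]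
        (fun n : ℕ => Real.sqrt (Real.log n) * (Real.log (Real.log n)) ^ ((5 : ℝ) / 2)) ∧
      {n : ℕ | (X t u n).Prime ∧ (Y t u n).Prime}.Finite) ∧
    (∀ S : Set ℕ, ∀ᵐ t : ℝ, 0 < t → ∀ u : ℝ, Law (X t u) S ∧ Law (Y t u) S) := by
  have hc1 : (0 : ℝ) < 1 / 2 := by norm_num
  have hc2 : (0 : ℝ) < 1 / (2 * Real.sqrt 2) := by have := sqrt2_pos; positivity
  have eX : ∀ t u : ℝ, X t u = fun q => roughPart q
      ((fun n : ℕ => ⌊1 / 2 * t * α ^ n + (u / 2) * α' ^ n⌋₊) q) := by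
    intro t u
    funext q
    unfold X
    rw [x_form]
  have eY : ∀ t u : ℝ, Y t u = fun q => roughPart q
      ((fun n : ℕ => ⌊1 / (2 * Real.sqrt 2) * t * α ^ n + (-(u / (2 * Real.sqrt 2))) * α' ^ n⌋₊) q) := by
    intro t u
    funext q
    unfold Y
    rw [y_form]
  have ptX := fun S => Pool.Agent.N567.PL.pt_all one_lt_alpha alpha_add alpha_mul hc1 S
  have ptY := fun S => Pool.Agent.N567.PL.pt_all one_lt_alpha alpha_add alpha_mul hc2 S
  have hpair := Pool.Agent.N567.PL.pair_all (α' := α') one_lt_alpha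
    (Pool.Agent.H19P.conj_abs one_lt_alpha alpha_mul) hc2 one_lt_sqrt2.le one_le_two dio_sqrt2
  refine ⟨fun t u n => ⟨x_succ t u n, y_succ t u n, norm_form t u n⟩, solutions, fun q hq h5 => ?_,
    question_one, question_two, ?_, fun S => ?_⟩
  · rw [X_one hq h5, Y_one hq h5, x_one, y_one]
    exact ⟨rfl, rfl⟩
  · filter_upwards [ptX Set.univ, ptY Set.univ, hpair] with t h1 h2 h3 h0 u
    refine ⟨?_, ?_, ?_⟩
    · rw [eX]
      exact all_of (h1 h0 (u / 2))
    · rw [eY]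
      exact all_of (h2 h0 (-(u / (2 * Real.sqrt 2))))
    · obtain ⟨N, hN⟩ := eventually_atTop.1 (h3 h0 (-(u / (2 * Real.sqrt 2))) (u / 2))
      refine (Set.finite_lt_nat N).subset ?_
      rintro n ⟨h4, h5⟩
      by_contra hc
      have hn : N ≤ n := not_lt.1 hc
      refine hN n hn ⟨?_, ?_⟩
      · rw [eY] at h5
        exact h5
      · rw [eX] at h4
        have e : Real.sqrt 2 * (1 / (2 * Real.sqrt 2)) * t * α ^ n = 1 / 2 * t * α ^ n := by
          have := sqrt2_pos.ne'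
          field_simp
        rw [e]
        exact h4
  · filter_upwards [ptX S, ptY S] with t h1 h2 h0 u
    rw [eX, eY]
    exact ⟨law_of (h1 h0 (u / 2)), law_of (h2 h0 (-(u / (2 * Real.sqrt 2))))⟩

end Pool.Agent.Results.MP_927e73_nt.PellOrbits
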