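import Mathlib
import Pool.Agent.N233.PE.Law
import Pool.Agent.N233.PE.Fin

set_option autoImplicit false

/-!
# The equation `p ^ 2 - 2 r ^ 2 = -1` in every sequential random model of the primes

The integers are decided one after the other, no integer with a common factor with `Q` is chosen, and
the conditional probability of choosing `n + 1` (coprime to `Q`) given the past is asymptotic to
`(Q / φ(Q)) / log n`, almost surely.  No independence and no rate is assumed.  In every such model,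
almost surely, infinitely many solutions of `p ^ 2 - 2 r ^ 2 = -1` have `p` chosen (with an asymptotic
formula for their number), but only finitely many have both `p` and `r` chosen.  The last assertion
holds almost surely for all equations `x ^ 2 - D y ^ 2 = M`, `D ≥ 1`, `M ≠ 0`, at once.
-/

open MeasureTheory Filter
open scoped Topology

namespace Pool.Agent.Results.MP_927e73_nt.SievedModels

/-- the solutions `(p_k, r_k)`: `(1, 1)`, and `(3 p + 4 r, 2 p + 3 r)` after `(p, r)` -/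
def sols : ℕ → ℕ × ℕ
  | 0 => (1, 1)
  | k + 1 => (3 * (sols k).1 + 4 * (sols k).2, 2 * (sols k).1 + 3 * (sols k).2)

/-- `p_k` -/
def p (k : ℕ) : ℕ := (sols k).1

/-- `r_k` -/
def r (k : ℕ) : ℕ := (sols k).2

lemma sols_eq (k : ℕ) : sols k = Pool.Agent.N233.PE.pr k := by
  induction k with
  | zero => rfl
  | succ k ih => simp only [sols, Pool.Agent.N233.PE.pr, ih]

lemma p_eq (k : ℕ) : p k = Pool.Agent.N233.PE.P k := by
  unfold p Pool.Agent.N233.PE.P
  rw [sols_eq]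

lemma r_eq (k : ℕ) : r k = Pool.Agent.N233.PE.R k := by
  unfold r Pool.Agent.N233.PE.R
  rw [sols_eq]

open Pool.Agent.N233.PE

lemma dens_lim (F : ℕ → ℕ) (Q W : ℕ) (hW : 0 < W) (hp : Function.Periodic (fun k => Nat.Coprime (F k) Q) W) :
    Tendsto (fun K : ℕ => ({k : ℕ | k < K ∧ Nat.Coprime (F k) Q}.ncard : ℝ) / K) atTop
      (𝓝 ((Nat.count (fun k => Nat.Coprime (F k) Q) W : ℝ) / W)) := by
  refine (Pool.Agent.R528.RM.periodic_dens (fun k => Nat.Coprime (F k) Q) W hW hp).congr fun K => ?_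
  congr 1
  rw [Finset.sum_boole]
  congr 1
  rw [← Set.ncard_coe_finset]
  congr 1
  ext k
  simp

/-- **The negative Pell equation in sieved random models.**  Let `S n` be the event that `n` is chosen,
adapted to a filtration `ℱ`, let `Q ≥ 1`, let no integer which is not coprime to `Q` be chosen, and let
the conditional probability of `S (n + 1)` given `ℱ n`, times `log n`, tend to `Q / φ(Q)` along the `n`
with `n + 1` coprime to `Q`, almost surely.  Let `(p_k, r_k)`, `k ≥ 0`, be the solutions of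
`p ^ 2 - 2 r ^ 2 = -1`.  Then the `k` with `p_k` (with `r_k`) coprime to `Q` have a density `a > 0`
(`b > 0`), and almost surely: the number of the `k < K` with `p_k` chosen is asymptotic to
`(Q / φ(Q)) a log K / (2 log (1 + √2))`; the number of the `k < K` with `r_k` chosen is asymptotic to
`(Q / φ(Q)) b log K / (2 log (1 + √2))`; infinitely many solutions have `p` chosen; and for all
`D ≥ 1` and `M ≠ 0` the equation `x ^ 2 - D y ^ 2 = M` has only finitely many solutions with both `x`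
and `y` chosen, in particular only finitely many `(p_k, r_k)` have both members chosen. -/
theorem result {Ω : Type} [mΩ : MeasurableSpace Ω] (μ : Measure Ω) [IsProbabilityMeasure μ]
    (ℱ : Filtration ℕ mΩ) (S : ℕ → Set Ω) (hS : ∀ n, MeasurableSet[ℱ n] (S n))
    (Q : ℕ) (hQ : 0 < Q) (hcop : ∀ n, ¬ Nat.Coprime n Q → S n = ∅)
    (hd : ∀ᵐ ω ∂μ, Tendsto (fun n : ℕ =>
      (μ[(S (n + 1)).indicator (fun _ => (1 : ℝ)) | ℱ n]) ω * Real.log n)
      (atTop ⊓ 𝓟 {n : ℕ | Nat.Coprime (n + 1) Q}) (𝓝 ((Q : ℝ) / Nat.totient Q))) :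
    (∀ x y : ℕ, (x : ℤ) ^ 2 - 2 * (y : ℤ) ^ 2 = -1 ↔ ∃ k, x = p k ∧ y = r k) ∧
    (∀ k, (p k : ℝ) + r k * √2 = (1 + √2) ^ (2 * k + 1)) ∧
    ∃ a b : ℝ, 0 < a ∧ 0 < b ∧
      Tendsto (fun K : ℕ => ({k : ℕ | k < K ∧ Nat.Coprime (p k) Q}.ncard : ℝ) / K) atTop (𝓝 a) ∧
      Tendsto (fun K : ℕ => ({k : ℕ | k < K ∧ Nat.Coprime (r k) Q}.ncard : ℝ) / K) atTop (𝓝 b) ∧
      ∀ᵐ ω ∂μ,
        Tendsto (fun K : ℕ => ({k : ℕ | k < K ∧ ω ∈ S (p k)}.ncard : ℝ) / Real.log K) atTop
          (𝓝 ((Q : ℝ) / Nat.totient Q * a / (2 * Real.log (1 + √2)))) ∧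
        Tendsto (fun K : ℕ => ({k : ℕ | k < K ∧ ω ∈ S (r k)}.ncard : ℝ) / Real.log K) atTop
          (𝓝 ((Q : ℝ) / Nat.totient Q * b / (2 * Real.log (1 + √2)))) ∧
        {e : ℕ × ℕ | (e.1 : ℤ) ^ 2 - 2 * (e.2 : ℤ) ^ 2 = -1 ∧ ω ∈ S e.1}.Infinite ∧
        (∀ (D : ℕ) (M : ℤ), 1 ≤ D → M ≠ 0 →
          {e : ℕ × ℕ | (e.1 : ℤ) ^ 2 - D * (e.2 : ℤ) ^ 2 = M ∧ ω ∈ S e.1 ∧ ω ∈ S e.2}.Finite) ∧
        {e : ℕ × ℕ | (e.1 : ℤ) ^ 2 - 2 * (e.2 : ℤ) ^ 2 = -1 ∧ ω ∈ S e.1 ∧ ω ∈ S e.2}.Finite := by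
  classical
  have hsol : ∀ x y : ℕ, (x : ℤ) ^ 2 - 2 * (y : ℤ) ^ 2 = -1 ↔ ∃ k, x = p k ∧ y = r k := by
    intro x y
    constructor
    · intro h
      have h1 : x ^ 2 + 1 = 2 * y ^ 2 := by
        have : (x : ℤ) ^ 2 + 1 = 2 * (y : ℤ) ^ 2 := by linarith
        exact_mod_cast this
      obtain ⟨k, hk1, hk2⟩ := sol y x h1
      exact ⟨k, by rw [p_eq, hk1], by rw [r_eq, hk2]⟩
    · rintro ⟨k, rfl, rfl⟩
      have h1 := eqn k
      rw [p_eq, r_eq]
      have : ((P k : ℕ) : ℤ) ^ 2 + 1 = 2 * ((R k : ℕ) : ℤ) ^ 2 := by exact_mod_cast h1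
      linarith
  refine ⟨hsol, fun k => by rw [p_eq, r_eq]; exact P_add k, ?_⟩
  simp only [p_eq, r_eq] at hsol ⊢
  obtain ⟨W, hW, hp1, hp2⟩ := periodic Q hQ
  have hL : 0 < 2 * Real.log (1 + √2) := by
    have := Real.log_pos (show (1 : ℝ) < 1 + √2 by linarith [one_lt_two_sqrt.1])
    linarith
  have hprof := Pool.Agent.R528.RM.dens_profile (μ := μ) hS Q hQ hcop hd
  have g1 := growth P P_bd
  have g2 := growth R R_bd
  have hP0 : Nat.Coprime (P 0) Q := by rw [P_zero]; exact Nat.coprime_one_left Q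
  have hR0 : Nat.Coprime (R 0) Q := by rw [R_zero]; exact Nat.coprime_one_left Q
  obtain ⟨ha, _⟩ := expected Q hQ P _ hL g1 W hW hp1 hP0
  obtain ⟨hb, _⟩ := expected Q hQ R _ hL g2 W hW hp2 hR0
  refine ⟨_, _, ha, hb, dens_lim P Q W hW hp1, dens_lim R Q W hW hp2, ?_⟩
  filter_upwards [count_law (μ := μ) hS Q hQ hprof P P_lt _ hL g1 W hW hp1 hP0,
    count_law (μ := μ) hS Q hQ hprof R R_lt _ hL g2 W hW hp2 hR0,
    finite_all (μ := μ) hS Q hprof] with ω h1 h2 h3
  refine ⟨h1, h2, ?_, fun D M hD hM => h3 D M hD hM, ?_⟩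
  · intro hfin
    have hc : 0 < (Q : ℝ) / Nat.totient Q := div_pos (by exact_mod_cast hQ) (by exact_mod_cast Nat.totient_pos.2 hQ)
    have hinj : Function.Injective (fun k => (P k, R k)) := by
      intro k l hkl
      exact (strictMono_nat_of_lt_succ P_lt).injective (congrArg Prod.fst hkl)
    have hfin2 : {k : ℕ | ω ∈ S (P k)}.Finite := by
      refine Set.Finite.of_finite_image (f := fun k => (P k, R k)) (hfin.subset ?_) hinj.injOn
      rintro _ ⟨k, hk, rfl⟩
      exact ⟨(hsol _ _).2 ⟨k, rfl, rfl⟩, hk⟩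
    have h0 : Tendsto (fun K : ℕ => ({k : ℕ | k < K ∧ ω ∈ S (P k)}.ncard : ℝ) / Real.log K) atTop (𝓝 0) := by
      have k1 : Tendsto (fun K : ℕ => ({k : ℕ | ω ∈ S (P k)}.ncard : ℝ) / Real.log K) atTop (𝓝 0) :=
        Tendsto.div_atTop tendsto_const_nhds logN_top
      refine squeeze_zero' ?_ ?_ k1
      · filter_upwards [logN_top.eventually_gt_atTop 0] with x hx
        positivity
      · filter_upwards [logN_top.eventually_gt_atTop 0] with x hx
        apply div_le_div_of_nonneg_right _ hx.le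
        have hsub : {k : ℕ | k < x ∧ ω ∈ S (P k)} ⊆ {k : ℕ | ω ∈ S (P k)} := fun k hk => hk.2
        exact_mod_cast Set.ncard_le_ncard hsub hfin2
    have h4 := tendsto_nhds_unique h1 h0
    have h5 : 0 < (Q : ℝ) / Nat.totient Q * ((Nat.count (fun k => Nat.Coprime (P k) Q) W : ℝ) / W) /
        (2 * Real.log (1 + √2)) := by positivity
    linarith
  · refine (h3 2 (-1) (by norm_num) (by norm_num)).subset ?_
    rintro e ⟨he1, he2⟩
    exact ⟨by simpa [E] using he1, he2⟩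

end Pool.Agent.Results.MP_927e73_nt.SievedModels
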