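import Mathlib
import Pool.Agent.N567.PL.Arith
import Pool.Agent.N176.SW.Fin
import Pool.Agent.N176.SW.All

set_option autoImplicit false

/-!
# Primes in the real orbits of the fundamental unit `1 + √2`: windows of any length

The real solutions of the recurrence `x (n + 1) = x n + 2 y n`, `y (n + 1) = x n + y n`, that is of
`x n + y n √2 = (x 0 + y 0 √2) (1 + √2) ^ n`, are the sequences `x t u`, `y t u` below, with
`t = x 0 + y 0 √2`, `u = x 0 - y 0 √2`; they satisfy `x n ^ 2 - 2 y n ^ 2 = t u (-1) ^ n`.  The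
positive integer solutions of `p ^ 2 - 2 r ^ 2 = -1` are the pairs `(x 1 1 n, y 1 1 n)` with `n` odd.
For a prime `q` let `X t u q` and `Y t u q` be the `q`-rough parts (the products, with multiplicity,
of the prime factors larger than `q`) of `⌊x t u q⌋` and `⌊y t u q⌋`.  At `t = u = 1` they are
`x 1 1 q` and `y 1 1 q` themselves for all primes `q ≥ 5`, and the first question asks whether
`X 1 1 q` is prime for infinitely many primes `q`.

According to the Poisson model the indices `q` with `X t u q` prime form, on the scale `log q`, a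
Poisson process of intensity `κ = e ^ γ / log (1 + √2)`, for a general `t`.  For such a process the
number of points in `(log n, log n']` differs from its mean `κ * log (n' / n)` by
`O (sqrt (log (n' / n) log log n') + log log n')`, for all windows at once, and for the windows
starting at the origin by `O (sqrt (log n log log log n))` (law of the iterated logarithm).  We prove
these bounds for almost every `t > 0` and all real `u` at once (so for almost every point with
`x + y √2 > 0` of every hyperbola `x ^ 2 - 2 y ^ 2 = N`, for instance `N = -1`), for all windows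
`(n, n']` at once, of whatever length, and for the whole counting function; and the same for the
indices in an arbitrary set `S` of primes of infinite weight `∑ log q / q`; the same for `Y`.

`MP_927e73_nt/PellOrbits.lean` bounds only the whole counting function, with an error larger by a
power of `log log n`.  The proof is that of `MP_5893d7_nt/GoldenWindows.lean` (Fibonacci and Lucas
numbers), in the base `1 + √2`: `P (h + 1) N + P h ⌊N / (1 + √2)⌋`, `P` the Pell numbers, takes the
place of `2 ^ h N`, and `⌊N / (1 + √2)⌋` is linear in `N` along steps of length `P m`, up to few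
exceptions.

Authors: helper176 (plan, exponential moments, dyadic blocks, windows, law of the iterated logarithm,
linearity along Pell steps, assembly), helper94 (sieve for a set of indices), helper971 (indices given
the first digits), following helpers 402, 581, 707 in the golden base; helper832,
helper170, helper966, helper116, helper603, helper222, helper738, helper255, helper564 (parts for all
real bases), and the authors of the case of the base two (helpers 455, 490, 645, 618, 644, 75, 136,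
123, 545, 697, 615, 348, 221); the arithmetic of the Pell equation is that of
`MP_927e73_nt/PellOrbits.lean` (helper567).
-/

namespace Pool.Agent.Results.MP_927e73_nt.SilverWindows

open Filter Topology MeasureTheory

/-- The fundamental unit. -/
noncomputable def α : ℝ := 1 + Real.sqrt 2

/-- Its conjugate. -/
noncomputable def α' : ℝ := 1 - Real.sqrt 2

/-- The first coordinate of the point number `n` of an orbit. -/
noncomputable def x (t u : ℝ) (n : ℕ) : ℝ := (t * α ^ n + u * α' ^ n) / 2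

/-- The second coordinate of the point number `n` of an orbit. -/
noncomputable def y (t u : ℝ) (n : ℕ) : ℝ := (t * α ^ n - u * α' ^ n) / (2 * Real.sqrt 2)

/-- The product, with multiplicity, of the prime factors of `m` that are larger than `q`. -/
def roughPart (q m : ℕ) : ℕ := (m.primeFactorsList.filter (fun r => q < r)).prod

/-- The `q`-rough part of `⌊x t u q⌋`. -/
noncomputable def X (t u : ℝ) (q : ℕ) : ℕ := roughPart q ⌊x t u q⌋₊

/-- The `q`-rough part of `⌊y t u q⌋`. -/
noncomputable def Y (t u : ℝ) (q : ℕ) : ℕ := roughPart q ⌊y t u q⌋₊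

open Classical in
/-- The number of primes `q ≤ n` in the set `S` for which `w q` is prime. -/
noncomputable def M (S : Set ℕ) (w : ℕ → ℕ) (n : ℕ) : ℕ :=
  ((Finset.range (n + 1)).filter (fun q => q.Prime ∧ q ∈ S ∧ (w q).Prime)).card

open Classical in
/-- The sum of `log q / q` over the primes `q ≤ n` in the set `S`. -/
noncomputable def V (S : Set ℕ) (n : ℕ) : ℝ :=
  ∑ q ∈ (Finset.range (n + 1)).filter (fun q => q.Prime ∧ q ∈ S), Real.log q / q

/-- The constant of the law, `e ^ γ / log (1 + √2)`. -/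
noncomputable def κ : ℝ := Real.exp Real.eulerMascheroniConstant / Real.log α

/-- The laws for the family of sequences `w t u`: all windows `(n, n']`, and the whole counting
function; for all primes, and for the primes in any set of infinite weight. -/
def Laws (w : ℝ → ℝ → ℕ → ℕ) : Prop :=
  (∃ C : ℝ, ∀ᵐ t : ℝ, 0 < t → ∀ u : ℝ,
    (∀ᶠ n : ℕ in atTop, ∀ n' ≥ n,
      |((M Set.univ (w t u) n' : ℝ) - M Set.univ (w t u) n) - κ * Real.log ((n' : ℝ) / n)| ≤
        C * (√(Real.log ((n' : ℝ) / n) * Real.log (Real.log n')) + Real.log (Real.log n'))) ∧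
    (∀ᶠ n : ℕ in atTop, |(M Set.univ (w t u) n : ℝ) - κ * Real.log n| ≤
      C * √(Real.log n * Real.log (Real.log (Real.log n))))) ∧
  (∃ C : ℝ, ∀ S : Set ℕ, Tendsto (fun n => V S n) atTop atTop → ∀ᵐ t : ℝ, 0 < t → ∀ u : ℝ,
    (∀ᶠ n : ℕ in atTop, ∀ n' ≥ n,
      |((M S (w t u) n' : ℝ) - M S (w t u) n) - κ * (V S n' - V S n)| ≤
        C * (√((V S n' - V S n) * Real.log (V S n')) + Real.log (V S n'))) ∧
    (∀ᶠ n : ℕ in atTop, |(M S (w t u) n : ℝ) - κ * V S n| ≤
      C * √(V S n * Real.log (Real.log (V S n)))))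

lemma sqrt2_sq : Real.sqrt 2 ^ 2 = 2 := Real.sq_sqrt (by norm_num)

lemma sqrt2_pos : 0 < Real.sqrt 2 := Real.sqrt_pos.2 (by norm_num)

lemma one_lt_sqrt2 : 1 < Real.sqrt 2 := by nlinarith [sqrt2_sq, sqrt2_pos]

lemma alpha_mul : α * α' = -1 := by unfold α α'; nlinarith [sqrt2_sq]

lemma abs_conj : |α'| < 1 := by
  have h1 := one_lt_sqrt2
  have h2 : Real.sqrt 2 < 2 := by nlinarith [sqrt2_sq, sqrt2_pos]
  unfold α'
  rw [abs_lt]
  constructor <;> linarith

lemma norm_form (t u : ℝ) (n : ℕ) : x t u n ^ 2 - 2 * y t u n ^ 2 = t * u * (-1) ^ n := by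
  have h0 := sqrt2_pos.ne'
  rw [← alpha_mul, mul_pow]
  unfold x y
  rw [div_pow, div_pow, mul_pow 2 (Real.sqrt 2), sqrt2_sq]
  ring

lemma x_succ (t u : ℝ) (n : ℕ) : x t u (n + 1) = x t u n + 2 * y t u n := by
  have h0 := sqrt2_pos.ne'
  have h : 2 * y t u n = (t * α ^ n - u * α' ^ n) * Real.sqrt 2 / 2 := by
    unfold y
    rw [eq_div_iff (by norm_num), ← mul_div_assoc, div_mul_eq_mul_div, div_eq_iff (by positivity)]
    linear_combination (-2 * (t * α ^ n - u * α' ^ n)) * sqrt2_sq
  rw [h]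
  unfold x
  rw [pow_succ, pow_succ]
  unfold α α'
  ring

lemma y_succ (t u : ℝ) (n : ℕ) : y t u (n + 1) = x t u n + y t u n := by
  have h0 := sqrt2_pos.ne'
  unfold x y
  rw [pow_succ, pow_succ, div_add_div _ _ (by norm_num) (by positivity),
    div_eq_div_iff (by positivity) (by positivity)]
  set a := α ^ n
  set b := α' ^ n
  unfold α α'
  linear_combination (4 * (t * a + u * b) - 4 * (t * a + u * b)) * sqrt2_sq

lemma x_one (n : ℕ) : x 1 1 n = Pool.Agent.N567.PL.H n := by
  rw [(Pool.Agent.N567.PL.closed_forms n).1]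
  unfold x α α'
  rw [one_mul, one_mul]

lemma y_one (n : ℕ) : y 1 1 n = Pool.Agent.N567.PL.D n := by
  rw [(Pool.Agent.N567.PL.closed_forms n).2]
  unfold y α α'
  rw [one_mul, one_mul]

lemma X_one {q : ℕ} (hq : q.Prime) (h5 : 5 ≤ q) : X 1 1 q = Pool.Agent.N567.PL.H q := by
  have h : Pool.Agent.H305R2.roughPart q ⌊x 1 1 q⌋₊ = Pool.Agent.N567.PL.H q := by
    rw [x_one, Nat.floor_natCast]
    exact Pool.Agent.H447R2.ML.roughPart_eq_self (Pool.Agent.N567.PL.H_pos q).ne' fun l hl h =>
      Pool.Agent.N567.PL.lt_of_dvd_H hq h5 hl h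
  exact h

lemma Y_one {q : ℕ} (hq : q.Prime) (h5 : 5 ≤ q) : Y 1 1 q = Pool.Agent.N567.PL.D q := by
  have h : Pool.Agent.H305R2.roughPart q ⌊y 1 1 q⌋₊ = Pool.Agent.N567.PL.D q := by
    rw [y_one, Nat.floor_natCast]
    refine Pool.Agent.H447R2.ML.roughPart_eq_self ?_ fun l hl h =>
      Pool.Agent.N567.PL.lt_of_dvd_D hq h5 hl h
    obtain ⟨n, rfl⟩ := Nat.exists_eq_add_of_le' hq.one_lt.le
    exact (Pool.Agent.N567.PL.D_pos n).ne'
  exact h

lemma solutions (p r : ℕ) : p ^ 2 + 1 = 2 * r ^ 2 ↔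
    ∃ n : ℕ, Odd n ∧ (p : ℝ) = x 1 1 n ∧ (r : ℝ) = y 1 1 n := by
  constructor
  · intro h
    obtain ⟨n, h1, h2, h3⟩ := Pool.Agent.N567.PL.pell_solutions r p h
    exact ⟨n, h1, by rw [x_one, h2], by rw [y_one, h3]⟩
  · rintro ⟨n, h1, h2, h3⟩
    rw [x_one] at h2
    rw [y_one] at h3
    have h2' : p = Pool.Agent.N567.PL.H n := by exact_mod_cast h2
    have h3' : r = Pool.Agent.N567.PL.D n := by exact_mod_cast h3
    rw [h2', h3']
    exact Pool.Agent.N567.PL.pell_conv h1

/-- passage from the solutions to the prime indices -/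
lemma infinite_iff :
    {s : ℕ × ℕ | s.1 ^ 2 + 1 = 2 * s.2 ^ 2 ∧ s.1.Prime}.Infinite ↔
    {q : ℕ | q.Prime ∧ 5 ≤ q ∧ (Pool.Agent.N567.PL.H q).Prime}.Infinite := by
  set f : ℕ → ℕ × ℕ := fun q => (Pool.Agent.N567.PL.H q, Pool.Agent.N567.PL.D q) with hf
  set Q := {q : ℕ | q.Prime ∧ 5 ≤ q ∧ (Pool.Agent.N567.PL.H q).Prime} with hQ
  set T := {s : ℕ × ℕ | s.1 ^ 2 + 1 = 2 * s.2 ^ 2 ∧ s.1.Prime} with hT
  have hinj : Set.InjOn f Q := by
    intro a ha b hb hab
    have h1 : Pool.Agent.N567.PL.H a = Pool.Agent.N567.PL.H b := (Prod.mk.injEq _ _ _ _ ▸ hab).1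
    rcases lt_trichotomy a b with h | h | h
    · exact absurd h1 (Pool.Agent.N567.PL.H_strict ha.1.one_lt.le h).ne
    · exact h
    · exact absurd h1 (Pool.Agent.N567.PL.H_strict hb.1.one_lt.le h).ne'
  constructor
  · intro hi hfin
    refine hi (((hfin.image f).union ((Set.finite_lt_nat 5).image f)).subset ?_)
    rintro ⟨p, r⟩ ⟨h1, h2⟩
    obtain ⟨n, hn, h4, h5⟩ := Pool.Agent.N567.PL.pell_solutions r p h1
    simp only at h1 h2
    have h6 := Pool.Agent.N567.PL.prime_index hn (h4 ▸ h2)
    by_cases h7 : 5 ≤ n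
    · exact Or.inl ⟨n, ⟨h6, h7, h4 ▸ h2⟩, by rw [hf, h4, h5]⟩
    · exact Or.inr ⟨n, by show n < 5; omega, by rw [hf, h4, h5]⟩
  · intro hi
    refine ((Set.infinite_image_iff hinj).2 hi).mono ?_
    rintro _ ⟨q, ⟨h1, h2, h3⟩, rfl⟩
    exact ⟨Pool.Agent.N567.PL.pell_conv (h1.odd_of_ne_two (by omega)), h3⟩

lemma question_one : {s : ℕ × ℕ | s.1 ^ 2 + 1 = 2 * s.2 ^ 2 ∧ s.1.Prime}.Infinite ↔
    {q : ℕ | q.Prime ∧ (X 1 1 q).Prime}.Infinite := by
  rw [infinite_iff]
  constructor
  · intro hi
    refine hi.mono ?_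
    rintro q ⟨h1, h2, h3⟩
    exact ⟨h1, by rw [X_one h1 h2]; exact h3⟩
  · intro hi hfin
    refine hi ((hfin.union (Set.finite_lt_nat 5)).subset ?_)
    rintro q ⟨h1, h2⟩
    by_cases h5 : 5 ≤ q
    · exact Or.inl ⟨h1, h5, by rw [← X_one h1 h5]; exact h2⟩
    · exact Or.inr (by show q < 5; omega)

/-- the laws for a family of sequences given by the multiples `c t` and `d u` -/
lemma laws_of {c d : ℝ} (hc : 0 < c) {w : ℝ → ℝ → ℕ → ℕ}
    (hw : ∀ t u, w t u = fun q => roughPart q ⌊c * t * α ^ q + d * u * α' ^ q⌋₊) : Laws w := by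
  have eM : ∀ S t u n, Pool.Agent.N176.GW.MB Pool.Agent.N176.SW.al (fun p => d * u * α' ^ p) S
      (c * t) n = M S (w t u) n := by
    intro S t u n
    rw [hw]
    rfl
  have eV : ∀ S n, Pool.Agent.N176.OW.VS S n = V S n := fun S n => rfl
  have ek : Pool.Agent.N176.GW.kr Pool.Agent.N176.SW.al = κ := rfl
  constructor
  · obtain ⟨C, h⟩ := Pool.Agent.N176.SW.scaled_univ hc abs_conj Pool.Agent.N176.SW.All.laws
    refine ⟨C, ?_⟩
    filter_upwards [h] with t ht h0 u
    have h1 := ht h0 (d * u)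
    simp only [eM, ek] at h1
    exact h1
  · obtain ⟨C, h⟩ := Pool.Agent.N176.SW.scaled_set hc abs_conj Pool.Agent.N176.SW.All.laws
    refine ⟨C, fun S hS => ?_⟩
    filter_upwards [h S hS] with t ht h0 u
    have h1 := ht h0 (d * u)
    simp only [eM, ek, eV] at h1
    exact h1

/-- **Primes in the real orbits of the fundamental unit: windows of any length.** -/
theorem result :
    (∀ (t u : ℝ) (n : ℕ), x t u (n + 1) = x t u n + 2 * y t u n ∧
      y t u (n + 1) = x t u n + y t u n ∧ x t u n ^ 2 - 2 * y t u n ^ 2 = t * u * (-1) ^ n) ∧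
    (∀ p r : ℕ, p ^ 2 + 1 = 2 * r ^ 2 ↔
      ∃ n : ℕ, Odd n ∧ (p : ℝ) = x 1 1 n ∧ (r : ℝ) = y 1 1 n) ∧
    (∀ q : ℕ, q.Prime → 5 ≤ q → (X 1 1 q : ℝ) = x 1 1 q ∧ (Y 1 1 q : ℝ) = y 1 1 q) ∧
    ({s : ℕ × ℕ | s.1 ^ 2 + 1 = 2 * s.2 ^ 2 ∧ s.1.Prime}.Infinite ↔
      {q : ℕ | q.Prime ∧ (X 1 1 q).Prime}.Infinite) ∧
    Laws X ∧ Laws Y := by
  refine ⟨fun t u n => ⟨x_succ t u n, y_succ t u n, norm_form t u n⟩, solutions, fun q hq h5 => ?_,
    question_one, ?_, ?_⟩
  · rw [X_one hq h5, Y_one hq h5, x_one, y_one]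
    exact ⟨rfl, rfl⟩
  · refine laws_of (c := 1 / 2) (d := 1 / 2) (by norm_num) fun t u => ?_
    funext q
    unfold X
    congr 2
    unfold x
    ring
  · refine laws_of (c := 1 / (2 * Real.sqrt 2)) (d := -(1 / (2 * Real.sqrt 2)))
      (by have := sqrt2_pos; positivity) fun t u => ?_
    funext q
    unfold Y
    congr 2
    unfold y
    ring

end Pool.Agent.Results.MP_927e73_nt.SilverWindows
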