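import Pool.Agent.N449.SQ.Final

/-!
# Sparse factors of the solutions of `x ^ 2 - 2 y ^ 2 = -1`, and of Lucas sequences

The solutions of `x ^ 2 - 2 y ^ 2 = -1` in positive integers are `x + y √2 = (1 + √2) ^ n`, `n` odd, and `x` or `y` is
prime only if `n` is prime. Let `n` be prime and let `x` or `y` be equal to `d e` with integers `|d|, |e| > 1`. We show
that `d` and `e` cannot both be sums of few Pell numbers `0, 1, 2, 5, 12, 29, …`, or of few short blocks of Pell numbers.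

More generally let `a ≥ 1`, `U_0 = 0`, `U_1 = 1`, `U_(k+2) = a U_(k+1) + U_k`, `V_0 = 2`, `V_1 = a`,
`V_(k+2) = a V_(k+1) + V_k`, and assume that the unit `ε = (a + √(a ^ 2 + 4)) / 2` is not a proper power in its field, that
is, `a` is not one of the values `V_r(b)`, `b ≥ 1`, `r ≥ 3` odd, of the companion sequence of another parameter `b`
(otherwise there are additional algebraic factors: `U_p(a) = U_(r p)(b) / U_r(b)`, for instance
`U_p(4) = F_(3 p) / 2` is divisible by `F_p` for `p > 3`). Let `p` be an odd prime, `U_p = d e` or `V_p = d e`, where neither `d` nor `e` divides both `2` and `a`, and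
`d = ∑_{i ∈ S} (u_i U_i + u'_i U_(i+1))`, `e = ∑_{j ∈ T} (v_j U_j + v'_j U_(j+1))` with `|S| = s`, `|T| = t` and
arbitrary integers `u_i, u'_i, v_j, v'_j`. Then
`ε ^ p ≤ (2 (a ^ 2 + 4) + 4 (∑ (|u_i| + (a+1) |u'_i|)) (∑ (|v_j| + (a+1) |v'_j|))) ^ ((8 t + 8) ^ (s + 1))`.

Proof in `Pool/Agent/N449/SQ`.
-/

set_option autoImplicit false

namespace Pool.Agent.Results.MP_927e73_nt.SparseFactors

/-- The Lucas sequence `U_n(a, -1)`; `U 2` are the Pell numbers. -/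
def U (a : ℤ) : ℕ → ℤ
  | 0 => 0
  | 1 => 1
  | k + 2 => a * U a (k + 1) + U a k

/-- The companion Lucas sequence `V_n(a, -1)`. -/
def V (a : ℤ) : ℕ → ℤ
  | 0 => 2
  | 1 => a
  | k + 2 => a * V a (k + 1) + V a k

theorem U_eq (a : ℤ) (i : ℕ) : U a i = Pool.Agent.N449.SQ.U a i := by
  induction i using Nat.strong_induction_on with
  | _ i ih =>
    match i with
    | 0 => rfl
    | 1 => rfl
    | i + 2 => rw [U, Pool.Agent.N449.SQ.U, ih (i + 1) (by omega), ih i (by omega)]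

theorem V_eq (a : ℤ) (i : ℕ) : V a i = Pool.Agent.N449.SQ.V a i := by
  induction i using Nat.strong_induction_on with
  | _ i ih =>
    match i with
    | 0 => rfl
    | 1 => rfl
    | i + 2 => rw [V, Pool.Agent.N449.SQ.V, ih (i + 1) (by omega), ih i (by omega)]

theorem pell (n : ℕ) : ((1 : ℝ) + √2) ^ n = (V 2 n : ℝ) / 2 + U 2 n * √2 := by
  have h2 : √(2 : ℝ) ^ 2 = 2 := Real.sq_sqrt (by norm_num)
  have h : ((1 : ℝ) + √2) ^ n = (V 2 n : ℝ) / 2 + U 2 n * √2 ∧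
      ((1 : ℝ) + √2) ^ (n + 1) = (V 2 (n + 1) : ℝ) / 2 + U 2 (n + 1) * √2 := by
    induction n with
    | zero => simp [V, U]
    | succ n ih =>
      refine ⟨ih.2, ?_⟩
      have e : ((1 : ℝ) + √2) ^ (n + 1 + 1) = 2 * (1 + √2) ^ (n + 1) + (1 + √2) ^ n := by
        have : ((1 : ℝ) + √2) ^ 2 = 2 * (1 + √2) + 1 := by linear_combination h2
        rw [show n + 1 + 1 = n + 2 from rfl, pow_add, this]
        ring
      rw [e, ih.1, ih.2, V, U]
      push_cast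
      ring
  exact h.1

/-- **Sparse factors of the solutions of `x ^ 2 - 2 y ^ 2 = -1`, and of Lucas sequences.** -/
theorem result :
    -- the equation `x ^ 2 - 2 y ^ 2 = -1`
    (∀ (n : ℕ) (x y : ℤ), n.Prime → x ^ 2 - 2 * y ^ 2 = -1 → (x : ℝ) + y * √2 = (1 + √2) ^ n →
      ∀ d e : ℤ, (d * e = x ∨ d * e = y) → 1 < |d| → 1 < |e| →
      ∀ (S T : Finset ℕ) (u u' v v' : ℕ → ℤ),
        d = ∑ i ∈ S, (u i * U 2 i + u' i * U 2 (i + 1)) →
        e = ∑ j ∈ T, (v j * U 2 j + v' j * U 2 (j + 1)) →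
        (1 + √2) ^ n ≤ ((16 + 8 * (∑ i ∈ S, (|u i| + 3 * |u' i|)) *
          (∑ j ∈ T, (|v j| + 3 * |v' j|)) : ℤ) : ℝ) ^ ((8 * (T.card + 1)) ^ (S.card + 1))) ∧
    -- Lucas sequences
    ∀ a : ℤ, 1 ≤ a → (∀ (b : ℤ) (r : ℕ), 1 ≤ b → 2 ≤ r → Odd r → V b r ≠ a) →
      ∀ p : ℕ, p.Prime → p ≠ 2 → ∀ d e : ℤ, (d * e = U a p ∨ d * e = V a p) → d ≠ 0 →
      ¬ (d ∣ 2 ∧ d ∣ a) → ¬ (e ∣ 2 ∧ e ∣ a) →
      ∀ (S T : Finset ℕ) (u u' v v' : ℕ → ℤ),
        d = ∑ i ∈ S, (u i * U a i + u' i * U a (i + 1)) →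
        e = ∑ j ∈ T, (v j * U a j + v' j * U a (j + 1)) →
        ((a + √((a : ℝ) ^ 2 + 4)) / 2) ^ p ≤
          ((2 * (a ^ 2 + 4) + 4 * (∑ i ∈ S, (|u i| + (a + 1) * |u' i|)) *
            (∑ j ∈ T, (|v j| + (a + 1) * |v' j|)) : ℤ) : ℝ) ^ ((8 * (T.card + 1)) ^ (S.card + 1)) := by
  have gen : ∀ a : ℤ, 1 ≤ a → (∀ (b : ℤ) (r : ℕ), 1 ≤ b → 2 ≤ r → Odd r → V b r ≠ a) →
      ∀ p : ℕ, p.Prime → p ≠ 2 → ∀ d e : ℤ, (d * e = U a p ∨ d * e = V a p) → d ≠ 0 →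
      ¬ (d ∣ 2 ∧ d ∣ a) → ¬ (e ∣ 2 ∧ e ∣ a) →
      ∀ (S T : Finset ℕ) (u u' v v' : ℕ → ℤ),
        d = ∑ i ∈ S, (u i * U a i + u' i * U a (i + 1)) →
        e = ∑ j ∈ T, (v j * U a j + v' j * U a (j + 1)) →
        ((a + √((a : ℝ) ^ 2 + 4)) / 2) ^ p ≤
          ((2 * (a ^ 2 + 4) + 4 * (∑ i ∈ S, (|u i| + (a + 1) * |u' i|)) *
            (∑ j ∈ T, (|v j| + (a + 1) * |v' j|)) : ℤ) : ℝ) ^ ((8 * (T.card + 1)) ^ (S.card + 1)) := by
    intro a ha hV p hp hp2 d e h hd0 hd he S T u u' v v' hS hT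
    simp only [V_eq] at hV
    exact Pool.Agent.N449.SQ.final ha hV p hp hp2 d e (by simpa only [U_eq, V_eq] using h) hd he hd0
      S T u u' v v' (by simpa only [U_eq] using hS) (by simpa only [U_eq] using hT)
  refine ⟨?_, gen⟩
  intro n x y hn hxy hpow d e hde hd he S T u u' v v' hS hT
  have hn2 : n ≠ 2 := by
    rintro rfl
    have h2 : √(2 : ℝ) ^ 2 = 2 := Real.sq_sqrt (by norm_num)
    have h3 : ((x - y * √2) * (x + y * √2) : ℝ) = -1 := by
      have : (x : ℝ) ^ 2 - 2 * (y : ℝ) ^ 2 = -1 := by exact_mod_cast hxy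
      linear_combination this - (y : ℝ) ^ 2 * h2
    rw [hpow] at h3
    have h4 : (x : ℝ) - y * √2 = -(1 - √2) ^ 2 := by
      have h5 : ((1 : ℝ) - √2) ^ 2 * (1 + √2) ^ 2 = 1 := by
        linear_combination (√(2 : ℝ) ^ 2) * h2
      have h6 : ((1 : ℝ) + √2) ^ 2 ≠ 0 := by positivity
      apply mul_right_cancel₀ h6
      linear_combination h3 + h5
    have h7 : (y : ℝ) * √2 = 3 := by
      have e1 : ((1 : ℝ) + √2) ^ 2 = 3 + 2 * √2 := by linear_combination h2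
      have e2 : ((1 : ℝ) - √2) ^ 2 = 3 - 2 * √2 := by linear_combination h2
      rw [e1] at hpow
      rw [e2] at h4
      linarith
    have h8 : ((2 * y ^ 2 : ℤ) : ℝ) = ((9 : ℤ) : ℝ) := by
      push_cast
      have : ((y : ℝ) * √2) ^ 2 = 9 := by rw [h7]; norm_num
      linear_combination this - (y : ℝ) ^ 2 * h2
    have h9 : 2 * y ^ 2 = 9 := by exact_mod_cast h8
    omega
  -- identification
  have hirr : Irrational √2 := irrational_sqrt_two
  rw [pell] at hpow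
  have hyU : y = U 2 n := by
    by_contra hne
    have h1 : ((y : ℝ) - U 2 n) * √2 = ((V 2 n : ℝ) / 2 - x) := by linarith
    have h2 : ((y : ℝ) - U 2 n) ≠ 0 := by
      intro h0
      apply hne
      have : (y : ℝ) = U 2 n := by linarith
      exact_mod_cast this
    apply hirr
    refine ⟨((V 2 n : ℚ) / 2 - x) / ((y : ℚ) - U 2 n), ?_⟩
    push_cast
    rw [← h1]
    field_simp
  have hxV : 2 * x = V 2 n := by
    rw [hyU] at hpow
    have : (2 : ℝ) * x = V 2 n := by linarith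
    exact_mod_cast this
  have hx : ¬ (2 : ℤ) ∣ x := by
    rintro ⟨k, rfl⟩
    have : (2 : ℤ) ∣ 1 := ⟨y ^ 2 - 2 * k ^ 2, by linarith⟩
    norm_num at this
  have hy : ¬ (2 : ℤ) ∣ y := by
    rintro ⟨k, rfl⟩
    have h1 : x % 4 = 0 ∨ x % 4 = 1 ∨ x % 4 = 2 ∨ x % 4 = 3 := by omega
    have h2 : x ^ 2 = 8 * k ^ 2 - 1 := by linarith
    have h3 : x ^ 2 % 4 = 3 := by rw [h2]; omega
    rcases h1 with h | h | h | h <;> · rw [pow_two, Int.mul_emod, h] at h3; norm_num at h3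
  have hdiv : ∀ z : ℤ, 1 < |z| → z ∣ 2 → (2 : ℤ) ∣ z := by
    intro z h1 h2
    have h3 : |z| ≤ 2 := Int.le_of_dvd (by norm_num) ((abs_dvd _ _).2 h2)
    have h4 : |z| = 2 := by omega
    exact (dvd_abs _ _).1 (by rw [h4])
  have h2e : ((2 : ℤ) + √(((2 : ℤ) : ℝ) ^ 2 + 4)) / 2 = 1 + √2 := by
    have : √(((2 : ℤ) : ℝ) ^ 2 + 4) = 2 * √2 := by
      rw [show (((2 : ℤ) : ℝ) ^ 2 + 4) = 2 ^ 2 * 2 by push_cast; norm_num, Real.sqrt_mul (by positivity),
        Real.sqrt_sq (by norm_num)]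
    rw [this]
    push_cast
    ring
  have hV2 : ∀ (b : ℤ) (r : ℕ), 1 ≤ b → 2 ≤ r → Odd r → V b r ≠ 2 := by
    intro b r hb hr _ h1
    have := Pool.Agent.N449.SQ.three_le_V b hb r hr
    rw [V_eq] at h1
    omega
  have hA0 : 0 ≤ ∑ i ∈ S, (|u i| + 3 * |u' i|) := Finset.sum_nonneg fun _ _ => by positivity
  have hB0 : 0 ≤ ∑ j ∈ T, (|v j| + 3 * |v' j|) := Finset.sum_nonneg fun _ _ => by positivity
  have hd0 : d ≠ 0 := by rintro rfl; simp at hd
  rcases hde with h | h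
  · have h1 := gen 2 (by norm_num) hV2 n hn hn2 (2 * d) e
      (by right; rw [← hxV, ← h]; ring) (by omega)
      (fun hh => by
        have h3 : d ∣ 1 := by
          obtain ⟨k, hk⟩ := hh.1
          exact ⟨k, by linarith⟩
        have := Int.isUnit_iff_abs_eq.1 (isUnit_of_dvd_one h3)
        omega)
      (fun hh => hx (h ▸ Dvd.dvd.mul_left (hdiv e he hh.1) d))
      S T (fun i => 2 * u i) (fun i => 2 * u' i) v v'
      (by rw [hS, Finset.mul_sum]; exact Finset.sum_congr rfl fun i _ => by ring)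
      hT
    rw [h2e] at h1
    have e1 : ∑ i ∈ S, (|2 * u i| + (2 + 1) * |2 * u' i|) = 2 * ∑ i ∈ S, (|u i| + 3 * |u' i|) := by
      rw [Finset.mul_sum]
      refine Finset.sum_congr rfl fun i _ => ?_
      rw [abs_mul, abs_mul, abs_two]
      ring
    have e2 : (2 * ((2 : ℤ) ^ 2 + 4) + 4 * (∑ i ∈ S, (|2 * u i| + (2 + 1) * |2 * u' i|)) *
            (∑ j ∈ T, (|v j| + (2 + 1) * |v' j|))) = 16 + 8 * (∑ i ∈ S, (|u i| + 3 * |u' i|)) *
          (∑ j ∈ T, (|v j| + 3 * |v' j|)) := by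
      rw [e1, show (2 + 1 : ℤ) = 3 by norm_num]
      ring
    rw [e2] at h1
    exact h1
  · have h1 := gen 2 (by norm_num) hV2 n hn hn2 d e (by left; rw [← hyU, ← h]) hd0
      (fun hh => hy (h ▸ Dvd.dvd.mul_right (hdiv d hd hh.1) e))
      (fun hh => hy (h ▸ Dvd.dvd.mul_left (hdiv e he hh.1) d))
      S T u u' v v' hS hT
    rw [h2e] at h1
    refine h1.trans ?_
    refine pow_le_pow_left₀ ?_ ?_ _
    · have := mul_nonneg hA0 hB0
      norm_num
      have h2 : (0 : ℝ) ≤ (∑ i ∈ S, (|(u i : ℝ)| + 3 * |(u' i : ℝ)|)) * ∑ j ∈ T, (|(v j : ℝ)| + 3 * |(v' j : ℝ)|) := by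
        positivity
      nlinarith
    · have := mul_nonneg hA0 hB0
      have h2 : (2 * ((2 : ℤ) ^ 2 + 4) + 4 * (∑ i ∈ S, (|u i| + (2 + 1) * |u' i|)) *
            (∑ j ∈ T, (|v j| + (2 + 1) * |v' j|))) ≤ (16 + 8 * (∑ i ∈ S, (|u i| + 3 * |u' i|)) *
          (∑ j ∈ T, (|v j| + 3 * |v' j|))) := by
        norm_num
        nlinarith
      exact_mod_cast h2

end Pool.Agent.Results.MP_927e73_nt.SparseFactors
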